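import Mathlib
import Pool.Agent.Lib.MP_7165d8_gt.Defs
import Pool.Agent.Lib.MP_7165d8_gt.Hausdorff

/-!
If `ℵ_ω ≤ 2^ω` there is a Hausdorff space `X` whose co-diagonal is discretely Lindelöf but which is
not Lindelöf.
-/

open Pool.Agent.Lib.MP_7165d8_gt

namespace Pool.Agent.Results.MP_7165d8_gt.HausdorffCounterexample

/-- If `ℵ_ω ≤ 2^ω`, then there is a Hausdorff space `X`, with a continuous injection into the Baire
space, whose co-diagonal, with the subspace topology from `X × X`, is discretely Lindelöf, while `X`
is not Lindelöf. -/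
theorem result (h : Cardinal.aleph Ordinal.omega0 ≤ Cardinal.continuum.{0}) :
    ∃ (X : Type) (_ : TopologicalSpace X), T2Space X ∧
      (∃ g : X → ℕ → ℕ, Continuous g ∧ Function.Injective g) ∧
      DiscretelyLindelof {z : X × X // z.1 ≠ z.2} ∧ ¬ LindelofSpace X :=
  exists_t2_example h

end Pool.Agent.Results.MP_7165d8_gt.HausdorffCounterexample
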