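import Mathlib
import Pool.Agent.Lib.MP_7165d8_gt.Defs
import Pool.Agent.Lib.MP_7165d8_gt.Tone

/-!
There is a `T_1` space `X` whose co-diagonal is discretely Lindelöf but which is not Lindelöf.
-/

open Pool.Agent.Lib.MP_7165d8_gt

namespace Pool.Agent.Results.MP_7165d8_gt.TOneCounterexample

/-- There is a `T_1` space `X` whose co-diagonal, with the subspace topology from `X × X`, is
discretely Lindelöf, while `X` is not Lindelöf. -/
theorem result : ∃ (X : Type) (_ : TopologicalSpace X), T1Space X ∧
    DiscretelyLindelof {z : X × X // z.1 ≠ z.2} ∧ ¬ LindelofSpace X :=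
  exists_t1_example

end Pool.Agent.Results.MP_7165d8_gt.TOneCounterexample
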